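import Pool.Agent.C4p.Ab

/-!
# MP_782628_co: polarity graphs of abelian planes of square order

Problem MP_782628_co (Erdős) asks whether `R(C₄, m) ≥ m ^ (2 - ε)` for infinitely many `m`. The densest known
`C₄`-free graphs are polarity graphs of projective planes. This file treats the planes given by planar difference
sets in abelian groups: if the order `q` is a square, the graph `x + y ∈ D` and all its subgraphs have independent
sets of at least `(q ^ (3/2) + 1) / 2` vertices.
-/

namespace Pool.Agent.Results.MP_782628_co.AbelianPlanes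

open Finset

/-- Let every nonzero element of a finite abelian group `G` be a difference of exactly one pair of elements of `D`,
`|D| = r ^ 2 + 1`. A graph on `G` with `x + y ∈ D` for all adjacent `x`, `y` has an independent set of at least
`(r ^ 3 + 1) / 2` vertices. -/
theorem result (r : ℕ) (hr : 1 ≤ r) (G : Type) [AddCommGroup G] [Fintype G] (D : Finset G)
    (hD : ∀ g : G, g ≠ 0 → ∃! w : G × G, w.1 ∈ D ∧ w.2 ∈ D ∧ w.1 - w.2 = g) (hn : D.card = r ^ 2 + 1)
    (Γ : SimpleGraph G) (hΓ : ∀ x y, Γ.Adj x y → x + y ∈ D) :
    ∃ I : Finset G, Γ.IsIndepSet (I : Set G) ∧ r ^ 3 + 1 ≤ 2 * I.card :=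
  Pool.Agent.C4p.mai r hr hD hn Γ hΓ

end Pool.Agent.Results.MP_782628_co.AbelianPlanes
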