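import Pool.Agent.C4i.Un

/-!
# MP_782628_co: the chromatic number of graphs defined over a finite field by polynomials of bounded degree

Problem MP_782628_co (Erdős) asks whether `R(C₄, m) ≥ m ^ (2 - ε)` for infinitely many `m`. The known
`C₄`-free graphs with few independent vertices are defined over finite fields by an equation of bounded
degree. This file shows that no such family, of bounded degree and dimension over finite fields, gives the
exponent `2`, also if every edge may choose its equation from a bounded number of equations: the chromatic number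
is at most `C q ^ (d - κ)`, so the independence number of graphs of the class with `n ≥ q ^ (2d - κ)` vertices is
at least `n ^ (1/2 + κ/(4d)) / C`.
-/

namespace Pool.Agent.Results.MP_782628_co.BoundedDegreeGraphs

open Finset

/-- For `d, t ≥ 1` and `k` there are `κ > 0` and `C` such that, for every finite field `F` of order `q` and all
polynomials `f_1, …, f_t` of total degree at most `k` over `F` in `2d` variables: let the vertices of a graph `G`
have labels `x ∈ F^d`, `z ∈ F` such that for all adjacent `u`, `v` some `i` has `z u + z v = f_i (x u, x v)`. If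
`2 z u ≠ f_i (x u, x u)` for all `i` and all vertices `u`, or if `G` is `C₄`-free (two different vertices have at
most one common neighbour), the vertices have different labels `(x, y, z)` for some `y ∈ F^(d - 1)`, and all
`f_i (X, X) ≠ 0` in characteristic 2, then `G` can be coloured with at most `C q ^ (d - κ)` colours, and if `G` has
`n ≥ q ^ (2d - κ)` vertices, `n` finite, then it has an independent set with at least `n ^ (1/2 + κ/(4d)) / C`
vertices. -/
theorem result (d k t : ℕ) (hd : 1 ≤ d) (ht : 1 ≤ t) :
    ∃ κ : ℝ, 0 < κ ∧ ∃ C : ℝ, ∀ (F : Type) [Field F] [Fintype F] (f : Fin t → MvPolynomial (Fin d ⊕ Fin d) F),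
      (∀ i, (f i).totalDegree ≤ k) →
      ∀ (V : Type) (G : SimpleGraph V) (x : V → Fin d → F) (z : V → F),
        (∀ u v, G.Adj u v → ∃ i, z u + z v = MvPolynomial.eval (Sum.elim (x u) (x v)) (f i)) →
        ((∀ i u, 2 * z u ≠ MvPolynomial.eval (Sum.elim (x u) (x u)) (f i)) ∨
          ((∀ u v a b, u ≠ v → a ≠ b → G.Adj u a → G.Adj u b → G.Adj v a → G.Adj v b → False) ∧
            (∃ y : V → Fin (d - 1) → F, Function.Injective fun v => (x v, y v, z v)) ∧
            ((2 : F) = 0 → ∀ i, MvPolynomial.rename (Sum.elim id id : Fin d ⊕ Fin d → Fin d) (f i) ≠ 0))) →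
        (∃ c : ℕ, (c : ℝ) ≤ C * (Fintype.card F : ℝ) ^ ((d : ℝ) - κ) ∧ G.Colorable c) ∧
        ∀ [Fintype V], (Fintype.card F : ℝ) ^ (2 * (d : ℝ) - κ) ≤ Fintype.card V →
          ∃ I : Finset V, G.IsIndepSet (I : Set V) ∧
            (Fintype.card V : ℝ) ^ ((1 : ℝ) / 2 + κ / (4 * d)) ≤ C * I.card := by
  exact Pool.Agent.C4i.alt t d k ht hd

end Pool.Agent.Results.MP_782628_co.BoundedDegreeGraphs
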