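import Pool.Agent.C4k.Ind

/-!
# MP_782628_co: graphs which every `C₄`-free graph with few independent vertices contains

Problem MP_782628_co (Erdős) asks whether `R(C₄, m) ≥ m ^ (2 - ε)` for infinitely many `m`. Let `D_0` be one vertex and
let `D_(d + 1)` consist of two disjoint copies of `D_d`, any two vertices of different copies joined by a path of
length two through a new vertex. This file shows that every `C₄`-free graph on at least `C m ^ (2 - δ)` vertices without
`m` independent vertices contains `D_d` as an induced subgraph, so in every hereditary class of graphs which does not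
contain all `D_d` the negated form of the conjecture holds.
-/

namespace Pool.Agent.Results.MP_782628_co.ForcedSubgraphs

/-- For every `d` there are `δ > 0` and `C` such that every graph on `n ≥ C m ^ (2 - δ)` vertices which is `C₄`-free
(two different vertices have at most one common neighbour) and has no independent set of `m` vertices contains the
graph `D_d` as an induced subgraph. -/
theorem result (d : ℕ) :
    ∃ δ : ℝ, 0 < δ ∧ ∃ C : ℝ, ∀ (V : Type) [Fintype V] (G : SimpleGraph V) (m : ℕ), 1 ≤ m →
      C * (m : ℝ) ^ (2 - δ) ≤ Fintype.card V →
      (∀ u v a b, u ≠ v → a ≠ b → G.Adj u a → G.Adj u b → G.Adj v a → G.Adj v b → False) →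
      (∀ I : Finset V, G.IsIndepSet (I : Set V) → I.card < m) →
      (Pool.Agent.C4k.Dg d).IsIndContained G := by
  obtain ⟨δ, hδ, C, h⟩ := Pool.Agent.C4k.fri d
  exact ⟨δ, hδ, C, fun V _ G m hm hn hG hI => h V G m hm hn hG hI⟩

end Pool.Agent.Results.MP_782628_co.ForcedSubgraphs
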