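import Pool.Agent.C4g.All

/-!
# MP_782628_co: polarity graphs of semifield planes, for every polarity

Problem MP_782628_co (Erdős) asks whether `R(C₄, m) ≥ m ^ (2 - ε)` for infinitely many `m`. The densest
`C₄`-free graphs known are polarity graphs of projective planes. This file bounds from below the independence
number of the polarity graphs of all semifield planes of order `q`, for every polarity, and of all the subgraphs
of their affine parts, by `n / (2100 √q)`. It replaces the earlier hand-in `SemifieldGraphs` (the case `σ = 1`, now
in `Pool/Agent/Variants`; better constants for special cases are in `Pool/Agent/C4g`).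

The proof for odd `q`: `Z` is the group of the elements fixed by `σ`, `π t = (t + σ t) / 2`, `F t = b(t, t) / 2`.
On edges `w u + w v = -F (x u - x v)`, where `w u = π (z u) - F (x u)`. For every non-trivial character `ψ` of `Z` there
is a set `A` of at least `√q / 256` elements of `X` with `Re ψ(F(a - a')) ≥ 0` on `A` (a maximal isotropic subgroup and
one or two sets `T` of about `√p` residues mod `p` with `c (t - t')²` mod `p` of absolute value at most `p / 8`; for a
non-residue `c` and `p = 1 mod 4` they come from a prime `l = 3 mod 4`, `l = c mod p`, for which `-p` is a square
modulo `l`). The vertices with `w u = 0` are absolute points, no two of them are adjacent.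

For even `q`: `t u = z u + σ (z u) + b(x u, x u)`. If `b(x, x)` is in the image of `1 + σ` then `t` has at most `√q` values,
and the edges in one class of `t` form a matching. For the other vertices one uses a character of the quotient by the
image of `1 + σ` and an isotropic subgroup.
-/

namespace Pool.Agent.Results.MP_782628_co.SemifieldPolarities

/-- Let `X` be a finite abelian group of order `q`, `σ` an additive map with `σ (σ a) = a`, and `b` a biadditive
product on `X` without zero divisors with `b y x = σ (b x y)` (the normal form of a polarity of a semifield plane).
Every graph `G` on `n` vertices whose vertices have different labels `(x, z)` in `X × X` with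
`z u + σ (z v) = b (x u) (x v)` for all adjacent `u`, `v` has an independent set of at least `n / (2100 √q)`
vertices. -/
theorem result (X : Type) [AddCommGroup X] [Fintype X] (σ : X →+ X) (hσ : ∀ a, σ (σ a) = a) (b : X →+ X →+ X)
    (hs : ∀ x y, b y x = σ (b x y)) (hb : ∀ x y, b x y = 0 → x = 0 ∨ y = 0) (V : Type) [Fintype V]
    (G : SimpleGraph V) (x z : V → X) (hinj : Function.Injective fun v => (x v, z v))
    (hG : ∀ u v, G.Adj u v → z u + σ (z v) = b (x u) (x v)) :
    ∃ I : Finset V, G.IsIndepSet (I : Set V) ∧
      (Fintype.card V : ℝ) / (2100 * Real.sqrt (Fintype.card X)) ≤ I.card :=
  Pool.Agent.C4g.allV σ hσ b hs hb G x z hinj hG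

end Pool.Agent.Results.MP_782628_co.SemifieldPolarities
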